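import Mathlib
import Pool.Agent.H89.Refl

set_option autoImplicit false

namespace Pool.Agent.Results.MP_f60174_an.Counter

open Pool.Agent.H89.Refl Metric

/-- The derivative `∂_i w` of a function on the plane. -/
noncomputable def pd (i : Fin 2) (w : EuclideanSpace ℝ (Fin 2) → ℝ)
    (x : EuclideanSpace ℝ (Fin 2)) : ℝ :=
  fderiv ℝ w x (EuclideanSpace.single i 1)

/-- The divergence form operator `- ∑ ∂_i (A_ij ∂_j w) + c w`. -/
noncomputable def op (A : Fin 2 → Fin 2 → EuclideanSpace ℝ (Fin 2) → ℝ)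
    (c w : EuclideanSpace ℝ (Fin 2) → ℝ) (x : EuclideanSpace ℝ (Fin 2)) : ℝ :=
  -(∑ i, pd i (fun y => ∑ j, A i j y * pd j w y) x) + c x * w x

def al0 : List ℚ := [156135335241991713756440228509557366719/2946990547001494162838949396480000000000, 37471347996165908185711780594860825645707/3831087711101942411690634215424000000000, -323684523706572570769749193941694910925299/1915543855550971205845317107712000000000, 100074299157770756162020539455366023637/66673994276051904136627814400000000, -8387696401704022177326948652266912509/1754161039881841763594612736000000, 394087725652963/55910400000, -124309390003/24960000, 57141819/41600]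
def be0 : List ℚ := [-1596682574569178139732293060130995125427/456081870369278858534599311360000000000, 25940191805270104952346452159821038103/177365171810275111652344176640000000, -9290477019407017062407511417842882321959/6385146185169904019484390359040000000, 11105033771757302365725555981159018523/2361370630610171604838901760000000, -194366981205479/27955200000, 5114368959/1040000, -141165237/104000]
def ga0 : List ℚ := [-113266204724632760212433510871243038237/478885963887742801461329276928000000000, -10880092081782011657521271186186253538621/239442981943871400730664638464000000000, 3156944664599851174361052975138081959/25581515164943525719088102400000000, -13651/250, -63987/500, 30473/200, -47751/1000]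
def c0 : List ℚ := [7857/1000, -139513/1000, 918853/1000, -2820429/1000, 109797/25, -1685809/500, 507087/500]
def a0 : List ℚ := [208489717/257234250, 533819/1000, -650163/200, 7821437/1000, -2337519/250, 697738/125, -334257/250]
def al1 : List ℚ := [522053899019072378513714791273119689/5902043855346858334581289893888000000, -655763952589965135590754704794628792897/270510343370064340334975786803200000000, 9237293659044139394046933641191790821079/135255171685032170167487893401600000000, 17934843026137812433215602109740233751/975397872728597381015537692800000000, 169590273722009495845500104154876024217/211336205757862765886699833440000000, -720418032511009829/204437128896000, 67135437451651/15696954000, -1577365713/962000]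
def be1 : List ℚ := [9528912185406356175765960742546821533/3005670481889603781499730964480000000, -125662910028069779056182748224579621761/3757088102362004726874663705600000000, -1803857541546682169072126503394975077/10837754141428859789061529920000000, -74337439552715089785763715844157268051/132085128598664228679187395900000000, 1704135739686147247/511092822240000, -1570993103363/373737000, 783317667/481000]
def ga1 : List ℚ := [-105346074592787532054792592077879246209/33813792921258042541871973350400000000, 1149340061990161955104230504555380267639/16906896460629021270935986675200000000, -9723862196009170156964067578779974349/216755082828577195781230598400000000, -34391/100, 66761/100, -2219/5, 280477/2800]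
def c1 : List ℚ := [3/100, 0, 0, 0, 0, 0, 0]
def a1 : List ℚ := [9315391399/2263661400, -5361/50, 50407/50, -421811/100, 426551/50, -200506/25, 280477/100]
def f1 : List ℚ := [7/48, -59/40, 1]
def f2 : List ℚ := [-69/100, 16/15]
def g1 : List ℚ := [39/224, -37/56, 0]
def g2 : List ℚ := [11/168, 7/12, -1]
def T : B := [[0, 0, 1], [], [1]]

def mat (al be ga : List ℚ) : Fin 2 → Fin 2 → B :=
  ![![badd (comp T al) (badd (bmul (comp T be) [[], [], [1]]) (bmul (comp T ga) [[], [0, -2]])),
      badd (bmul (comp T be) [[], [0, 1]]) (bmul (comp T ga) [[0, 0, -1], [], [1]])],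
    ![badd (bmul (comp T be) [[], [0, 1]]) (bmul (comp T ga) [[0, 0, -1], [], [1]]),
      badd (comp T al) (badd (bmul (comp T be) [[0, 0, 1]]) (bmul (comp T ga) [[], [0, 2]]))]]

def sol (p q : List ℚ) : B :=
  bmul (comp T [1, -1]) (badd (bmul (comp T p) [[], [1]]) (bmul (comp T q) [[0, 1]]))

def bop (M : Fin 2 → Fin 2 → B) (c w : B) : B :=
  badd (bmul [[-1]] (badd (d0 (badd (bmul (M 0 0) (d0 w)) (bmul (M 0 1) (d1 w))))
    (d1 (badd (bmul (M 1 0) (d0 w)) (bmul (M 1 1) (d1 w)))))) (bmul c w)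

def det (al be ga : List ℚ) : List ℚ :=
  ladd (lmul (ladd (ladd al [-1 / 1000]) (lmul [0, 1] be)) (ladd al [-1 / 1000]))
    (lmul [0, 0, -1] (lmul ga ga))

lemma pd0 (p : B) : pd 0 (ev2 p) = ev2 (d0 p) := by
  funext x; simp [pd, fderiv_ev2]

lemma pd1 (p : B) : pd 1 (ev2 p) = ev2 (d1 p) := by
  funext x; simp [pd, fderiv_ev2]

lemma op_eq (M : Fin 2 → Fin 2 → B) (c w : B) (x : E) :
    op (fun i j => ev2 (M i j)) (ev2 c) (ev2 w) x = ev2 (bop M c w) x := by
  have h : ∀ i, (fun y => ∑ j, ev2 (M i j) y * pd j (ev2 w) y) =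
      ev2 (badd (bmul (M i 0) (d0 w)) (bmul (M i 1) (d1 w))) := by
    intro i; funext y; simp [Fin.sum_univ_two, pd0, pd1]
  simp only [op, h]
  simp only [Fin.sum_univ_two, pd0, pd1, bop, ev2_badd, ev2_bmul]
  simp

lemma evT (x : E) : ev2 T x = ‖x‖ ^ 2 := by
  rw [EuclideanSpace.real_norm_sq_eq]
  simp [T, Fin.sum_univ_two]; ring

lemma psd (a b c x y : ℝ) (h1 : 0 < a + c) (h2 : 0 < a * c - b ^ 2) :
    0 ≤ a * x ^ 2 + 2 * b * x * y + c * y ^ 2 := by
  have ha : 0 < a := by
    by_contra h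
    push Not at h
    nlinarith [sq_nonneg b]
  have : 0 ≤ a * (a * x ^ 2 + 2 * b * x * y + c * y ^ 2) := by
    nlinarith [sq_nonneg (a * x + b * y), mul_nonneg h2.le (sq_nonneg y)]
  exact (mul_nonneg_iff_of_pos_left ha).mp this

lemma ell (al be ga : List ℚ) (x ξ : E) (h1 : 0 < ev (ladd al [-1 / 1000]) (‖x‖ ^ 2))
    (h2 : 0 < ev (det al be ga) (‖x‖ ^ 2)) :
    1 / 1000 * ‖ξ‖ ^ 2 ≤ ∑ i, ∑ j, ev2 (mat al be ga i j) x * ξ i * ξ j := by
  have ht : ‖x‖ ^ 2 = x 0 ^ 2 + x 1 ^ 2 := by
    rw [EuclideanSpace.real_norm_sq_eq]; simp [Fin.sum_univ_two]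
  have hξ : ‖ξ‖ ^ 2 = ξ 0 ^ 2 + ξ 1 ^ 2 := by
    rw [EuclideanSpace.real_norm_sq_eq]; simp [Fin.sum_univ_two]
  simp only [det, ev_ladd, ev_lmul, ev_cons, ev_nil] at h1 h2
  simp only [mat, Fin.sum_univ_two, Matrix.cons_val_zero, Matrix.cons_val_one, ev2_badd, ev2_bmul,
    ev2_comp, evT, ev2_cons, ev2_nil, ev_cons, ev_nil, hξ]
  generalize ev al (‖x‖ ^ 2) = a at *
  generalize ev be (‖x‖ ^ 2) = b at *
  generalize ev ga (‖x‖ ^ 2) = g at *
  rw [ht] at h2
  push_cast at *
  have h3 : 0 < a - 1 / 1000 + (x 0 ^ 2 + x 1 ^ 2) * b := by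
    by_contra h
    push Not at h
    nlinarith [sq_nonneg ((x 0 ^ 2 + x 1 ^ 2) * g)]
  have := psd (a - 1 / 1000 + b * x 0 ^ 2 - 2 * g * x 0 * x 1) (b * x 0 * x 1 + g * (x 0 ^ 2 - x 1 ^ 2))
    (a - 1 / 1000 + b * x 1 ^ 2 + 2 * g * x 0 * x 1) (ξ 0) (ξ 1) (by nlinarith) (by
      have := h2; ring_nf at this ⊢; linarith)
  nlinarith

lemma pos1 (p : List ℚ) (n : ℕ) (h : chk p (1 / (n + 1)) (n + 1) = true) (x : E)
    (hx : x ∈ closedBall (0 : E) 1) : 0 < ev p (‖x‖ ^ 2) := by
  have h1 : ‖x‖ ≤ 1 := by simpa using hx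
  refine pos_of_chk p _ n h _ (by positivity) ?_
  have : ((n : ℝ) + 1) * ((1 / (n + 1) : ℚ) : ℝ) = 1 := by
    push_cast; field_simp
  rw [this]
  nlinarith [norm_nonneg x]

lemma e1 : bzero (badd (bop (mat al0 be0 ga0) (comp T c0) (sol f1 f2))
    (bmul (comp T a0) (sol g1 g2))) = true := by decide +kernel

lemma e2 : bzero (badd (bmul [[-1]] (bmul (comp T a1) (sol f1 f2)))
    (bop (mat al1 be1 ga1) (comp T c1) (sol g1 g2))) = true := by decide +kernel

lemma k1 : chk (ladd al0 [-1 / 1000]) (1 / ((19 : ℕ) + 1)) (19 + 1) = true := by decide +kernel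
lemma k2 : chk (det al0 be0 ga0) (1 / ((19 : ℕ) + 1)) (19 + 1) = true := by decide +kernel
lemma k3 : chk (ladd c0 [-1 / 1000]) (1 / ((99 : ℕ) + 1)) (99 + 1) = true := by decide +kernel
lemma k4 : chk a0 (1 / ((49 : ℕ) + 1)) (49 + 1) = true := by decide +kernel
lemma k5 : chk (ladd al1 [-1 / 1000]) (1 / ((49 : ℕ) + 1)) (49 + 1) = true := by decide +kernel
lemma k6 : chk (det al1 be1 ga1) (1 / ((49 : ℕ) + 1)) (49 + 1) = true := by decide +kernel
lemma k7 : chk (ladd c1 [-1 / 1000]) (1 / ((9 : ℕ) + 1)) (9 + 1) = true := by decide +kernel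
lemma k8 : chk a1 (1 / ((199 : ℕ) + 1)) (199 + 1) = true := by decide +kernel

theorem result :
    ∃ (A B : Fin 2 → Fin 2 → EuclideanSpace ℝ (Fin 2) → ℝ)
      (c d a b u v : EuclideanSpace ℝ (Fin 2) → ℝ) (lam : ℝ), 0 < lam ∧
      (∀ i j, ContDiff ℝ (⊤ : ℕ∞) (A i j) ∧ ContDiff ℝ (⊤ : ℕ∞) (B i j) ∧
        A i j = A j i ∧ B i j = B j i) ∧
      (∀ f ∈ [c, d, a, b, u, v], ContDiff ℝ (⊤ : ℕ∞) f) ∧
      (∀ x ∈ closedBall (0 : EuclideanSpace ℝ (Fin 2)) 1,
        (∀ ξ : EuclideanSpace ℝ (Fin 2), lam * ‖ξ‖ ^ 2 ≤ ∑ i, ∑ j, A i j x * ξ i * ξ j ∧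
          lam * ‖ξ‖ ^ 2 ≤ ∑ i, ∑ j, B i j x * ξ i * ξ j) ∧
        lam ≤ c x ∧ lam ≤ d x ∧ 0 < a x ∧ 0 < b x) ∧
      (∀ x ∈ ball (0 : EuclideanSpace ℝ (Fin 2)) 1,
        op A c u x + a x * v x = 0 ∧ -(b x * u x) + op B d v x = 0) ∧
      (∀ x ∈ sphere (0 : EuclideanSpace ℝ (Fin 2)) 1, u x = 0 ∧ v x = 0) ∧
      ∃ x ∈ ball (0 : EuclideanSpace ℝ (Fin 2)) 1, u x ≠ 0 := by
  refine ⟨fun i j => ev2 (mat al0 be0 ga0 i j), fun i j => ev2 (mat al1 be1 ga1 i j),
    ev2 (comp T c0), ev2 (comp T c1), ev2 (comp T a0), ev2 (comp T a1), ev2 (sol f1 f2),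
    ev2 (sol g1 g2), 1 / 1000, by norm_num, fun i j => ⟨contDiff_ev2 _ _, contDiff_ev2 _ _, ?_, ?_⟩,
    ?_, fun x hx => ⟨fun ξ => ⟨ell _ _ _ x ξ (pos1 _ _ k1 x hx) (pos1 _ _ k2 x hx),
      ell _ _ _ x ξ (pos1 _ _ k5 x hx) (pos1 _ _ k6 x hx)⟩, ?_, ?_, ?_, ?_⟩,
    fun x _ => ⟨?_, ?_⟩, fun x hx => ?_, ?_⟩
  · fin_cases i <;> fin_cases j <;> rfl
  · fin_cases i <;> fin_cases j <;> rfl
  · intro f hf
    simp only [List.mem_cons, List.not_mem_nil, or_false] at hf
    rcases hf with h | h | h | h | h | h <;> rw [h] <;> exact contDiff_ev2 _ _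
  · have := pos1 _ _ k3 x hx
    simp only [ev_ladd, ev_cons, ev_nil] at this
    rw [ev2_comp, evT]; push_cast at this; linarith
  · have := pos1 _ _ k7 x hx
    simp only [ev_ladd, ev_cons, ev_nil] at this
    rw [ev2_comp, evT]; push_cast at this; linarith
  · rw [ev2_comp, evT]; exact pos1 _ _ k4 x hx
  · rw [ev2_comp, evT]; exact pos1 _ _ k8 x hx
  · rw [op_eq, ← ev2_bmul, ← ev2_badd]; exact ev2_zero _ e1 x
  · have := ev2_zero _ e2 x
    rw [op_eq]
    simpa using this
  · have h1 : ‖x‖ = 1 := by simpa using hx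
    simp [sol, evT, h1]
  · refine ⟨EuclideanSpace.single 0 (1 / 2), by simp; norm_num, ?_⟩
    simp [sol, evT, f1]
    norm_num

end Pool.Agent.Results.MP_f60174_an.Counter
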